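import Mathlib
import Pool.Agent.N679.SD.Den

/-! # Windows far to the right with large density, a limit set -/

set_option autoImplicit false

namespace Pool.Agent.N679.GB

open Finset Filter
open Pool.Agent.N679.PD (Adm gcd_one gcd_ne)
open Pool.Agent.N679.SD (split adm_shift)

open Classical in
/-- the elements of a class in a window -/
theorem cls_card' (N : ℕ) (hN : 1 ≤ N) (α A : ℤ) (H : ℕ) : ∃ (u : ℤ) (L : ℕ), H < N * (L + 1) ∧ A < α + N * u ∧
    ∀ P : ℤ → Prop, ((Ioc A (A + H)).filter (fun a => (N : ℤ) ∣ a - α ∧ P a)).card =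
      ((range L).filter (fun n : ℕ => P (α + N * (u + n)))).card := by
  have hN0 : (0 : ℤ) < N := by exact_mod_cast hN
  obtain ⟨L, hL⟩ : ∃ L : ℕ, (L : ℤ) = (A + H - α) / N - (A - α) / N := by
    refine ⟨((A + H - α) / N - (A - α) / N).toNat, Int.toNat_of_nonneg ?_⟩
    rw [sub_nonneg]
    exact Int.ediv_le_ediv hN0 (by linarith [(Nat.cast_nonneg H : (0 : ℤ) ≤ H)])
  have hmem : ∀ s : ℤ, (A < α + N * s ∧ α + N * s ≤ A + H) ↔ ((A - α) / N < s ∧ s ≤ (A + H - α) / N) := by
    intro s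
    rw [Int.ediv_lt_iff_lt_mul hN0, Int.le_ediv_iff_mul_le hN0]
    constructor
    · rintro ⟨h1, h2⟩
      constructor <;> linarith [mul_comm (N : ℤ) s]
    · rintro ⟨h1, h2⟩
      constructor <;> linarith [mul_comm (N : ℤ) s]
  refine ⟨(A - α) / N + 1, L, ?_, ?_, fun P => ?_⟩
  · have h1 := Int.emod_add_mul_ediv (A + H - α) N
    have h2 := Int.emod_add_mul_ediv (A - α) N
    have h3 := Int.emod_lt_of_pos (A + H - α) hN0
    have h4 := Int.emod_nonneg (A - α) hN0.ne'
    have h5 : (H : ℤ) < N * (L + 1) := by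
      rw [hL]
      have : (N : ℤ) * ((A + H - α) / N - (A - α) / N + 1) = N * ((A + H - α) / N) - N * ((A - α) / N) + N := by ring
      rw [this]
      linarith
    exact_mod_cast h5
  · have h2 := Int.emod_add_mul_ediv (A - α) N
    have h3 := Int.emod_lt_of_pos (A - α) hN0
    have h4 : (N : ℤ) * ((A - α) / N + 1) = N * ((A - α) / N) + N := by ring
    rw [h4]
    linarith
  · symm
    apply Finset.card_bij (fun (n : ℕ) _ => α + N * ((A - α) / N + 1 + (n : ℤ)))
    · intro n hn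
      obtain ⟨h1, h2⟩ := mem_filter.1 hn
      rw [mem_filter, mem_Ioc]
      refine ⟨(hmem _).2 ⟨by linarith [(Nat.cast_nonneg n : (0 : ℤ) ≤ n)], ?_⟩, ?_, h2⟩
      · have : (n : ℤ) < L := by exact_mod_cast mem_range.1 h1
        linarith
      · rw [add_sub_cancel_left]
        exact Dvd.intro _ rfl
    · intro n _ n' _ he
      have h1 : (N : ℤ) * ((A - α) / N + 1 + n) = N * ((A - α) / N + 1 + n') := by linarith
      have h2 := mul_left_cancel₀ hN0.ne' h1
      have h3 : (n : ℤ) = n' := by linarith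
      exact_mod_cast h3
    · intro a ha
      rw [mem_filter, mem_Ioc] at ha
      obtain ⟨h1, ⟨s, hs⟩, h3⟩ := ha
      have e : a = α + N * s := by linarith
      rw [e] at h1 h3
      obtain ⟨h4, h5⟩ := (hmem s).1 h1
      have e2 : (A - α) / N + 1 + ((s - ((A - α) / N + 1)).toNat : ℤ) = s := by
        rw [Int.toNat_of_nonneg (by linarith)]
        ring
      refine ⟨(s - ((A - α) / N + 1)).toNat, mem_filter.2 ⟨mem_range.2 ?_, ?_⟩, ?_⟩
      · zify
        rw [Int.toNat_of_nonneg (by linarith), hL]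
        linarith
      · rw [e2]
        exact h3
      · show α + N * ((A - α) / N + 1 + ((s - ((A - α) / N + 1)).toNat : ℤ)) = a
        rw [e2, e]

/-- a greedy covering by intervals of small density -/
theorem cover {P : ℤ → Prop} [DecidablePred P] {ρ : ℝ} (hρ : 0 ≤ ρ) {R : ℕ}
    (h : ∀ u : ℕ, R ≤ u → ∃ R' : ℕ, 1 ≤ R' ∧ R' ≤ R ∧
      (((range R').filter (fun n : ℕ => P (u + n))).card : ℝ) < ρ * R') :
    ∀ L u : ℕ, R ≤ u → (((range L).filter (fun n : ℕ => P (u + n))).card : ℝ) ≤ ρ * L + R := by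
  intro L
  induction L using Nat.strong_induction_on with
  | _ L ih =>
    intro u hu
    rcases le_or_gt L R with hL | hL
    · have h1 : ((range L).filter (fun n : ℕ => P (u + n))).card ≤ L := by
        refine (card_filter_le _ _).trans ?_
        rw [card_range]
      have h2 : (((range L).filter (fun n : ℕ => P (u + n))).card : ℝ) ≤ R := by exact_mod_cast h1.trans hL
      have h3 : 0 ≤ ρ * L := by positivity
      linarith
    · obtain ⟨R', hR1, hR2, hlt⟩ := h u hu
      have h1 := ih (L - R') (by omega) (u + R') (by omega)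
      have h2 : ((range L).filter (fun n : ℕ => P (u + n))).card ≤
          ((range R').filter (fun n : ℕ => P (u + n))).card +
            ((range (L - R')).filter (fun n : ℕ => P (((u + R' : ℕ) : ℤ) + n))).card := by
        have h3 : (range L).filter (fun n : ℕ => P (u + n)) ⊆ (range R').filter (fun n : ℕ => P (u + n)) ∪
            ((range (L - R')).filter (fun n : ℕ => P (((u + R' : ℕ) : ℤ) + n))).image (fun n => R' + n) := by
          intro n hn
          obtain ⟨h4, h5⟩ := mem_filter.1 hn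
          rw [mem_range] at h4
          rw [mem_union]
          rcases lt_or_ge n R' with h6 | h6
          · exact Or.inl (mem_filter.2 ⟨mem_range.2 h6, h5⟩)
          · right
            rw [mem_image]
            refine ⟨n - R', mem_filter.2 ⟨mem_range.2 (by omega), ?_⟩, by omega⟩
            have h7 : ((u + R' : ℕ) : ℤ) + ((n - R' : ℕ) : ℤ) = u + n := by push_cast [h6]; ring
            rw [h7]
            exact h5
        exact (card_le_card h3).trans ((card_union_le _ _).trans (add_le_add_right card_image_le _))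
      have h3 : (((range L).filter (fun n : ℕ => P (u + n))).card : ℝ) ≤
          (((range R').filter (fun n : ℕ => P (u + n))).card : ℝ) +
            (((range (L - R')).filter (fun n : ℕ => P (((u + R' : ℕ) : ℤ) + n))).card : ℝ) := by
        exact_mod_cast h2
      have h4 : ((L - R' : ℕ) : ℝ) = (L : ℝ) - R' := by
        rw [Nat.cast_sub (by omega)]
      rw [h4] at h1
      have h5 : ρ * ((L : ℝ) - R') = ρ * L - ρ * R' := by ring
      rw [h5] at h1
      linarith

open Classical in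
/-- a class in which there are windows far to the right, all of whose initial segments have large density -/
theorem dens2 {d N N₀ : ℕ} (hN : 1 ≤ N) (h2 : 2 ∣ N) (hdN : d ∣ N) (hN₀ : N₀ ∣ N) (r : ℤ)
    (G : ℤ → Prop) (hG : ∀ a, G a → Adm a d) (ρ ρ' : ℝ) (hρ' : 0 ≤ ρ') (hρ : ρ' < ρ)
    (h : ∀ L : ℕ, ∃ M H : ℕ, L ≤ M ∧ L ≤ H ∧
      (((Ioc (M : ℤ) (M + H)).filter (fun a : ℤ => (N₀ : ℤ) ∣ a - r ∧ G a)).card : ℝ) <
        (1 - ρ) * (((Ioc (M : ℤ) (M + H)).filter (fun a : ℤ => (N₀ : ℤ) ∣ a - r ∧ Adm a d)).card : ℝ)) :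
    ∃ α : ℤ, 0 ≤ α ∧ α < N ∧ Adm α d ∧ ∀ R : ℕ, ∃ u : ℕ, R ≤ u ∧ ∀ R' : ℕ, 1 ≤ R' → R' ≤ R →
      ρ' * R' ≤ (((range R').filter (fun n : ℕ => ¬ G (α + N * ((u : ℤ) + n)))).card : ℝ) := by
  by_contra hcon
  push Not at hcon
  have hdN' : (d : ℤ) ∣ N := by exact_mod_cast hdN
  have hN₀' : (N₀ : ℤ) ∣ N := by exact_mod_cast hN₀
  have hN0 : (0 : ℤ) < N := by exact_mod_cast hN
  have hex : ∀ α : ℕ, ∃ R : ℕ, α < N → Adm α d → ∀ u : ℕ, R ≤ u → ∃ R' : ℕ, 1 ≤ R' ∧ R' ≤ R ∧
      (((range R').filter (fun n : ℕ => ¬ G (α + N * ((u : ℤ) + n)))).card : ℝ) < ρ' * R' := by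
    intro α
    by_cases hα : α < N ∧ Adm α d
    · obtain ⟨R, hR⟩ := hcon α (by positivity) (by exact_mod_cast hα.1) hα.2
      exact ⟨R, fun _ _ => hR⟩
    · exact ⟨0, fun h1 h2 => absurd ⟨h1, h2⟩ hα⟩
  choose R hR using hex
  set Rm : ℕ := ∑ α ∈ range N, R α with hRm
  obtain ⟨W, hW⟩ := exists_nat_gt ((Rm : ℝ) / (ρ - ρ'))
  obtain ⟨M, H, hM, hH, hlt⟩ := h (N * (Rm + 1) + N * (W + 1))
  set A : ℤ := (M : ℤ) with hA
  set ad : Finset ℤ := (Ioc A (A + H)).filter (fun a : ℤ => (N₀ : ℤ) ∣ a - r ∧ Adm a d) with had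
  set bd : Finset ℤ := (Ioc A (A + H)).filter (fun a : ℤ => (N₀ : ℤ) ∣ a - r ∧ Adm a d ∧ ¬ G a) with hbd
  set gd : Finset ℤ := (Ioc A (A + H)).filter (fun a : ℤ => (N₀ : ℤ) ∣ a - r ∧ G a) with hgd
  have hsum : gd.card + bd.card = ad.card := by
    rw [← Finset.card_filter_add_card_filter_not (s := ad) (fun a => G a)]
    congr 2
    · rw [had, hgd, filter_filter]
      apply filter_congr
      intro a _
      constructor
      · rintro ⟨h1, h3⟩; exact ⟨⟨h1, hG a h3⟩, h3⟩
      · rintro ⟨⟨h1, _⟩, h3⟩; exact ⟨h1, h3⟩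
    · rw [had, hbd, filter_filter]
      apply filter_congr
      intro a _
      tauto
  -- the class of `α`
  have hcl : ∀ α ∈ range N, (N₀ : ℤ) ∣ α - r → Adm α d →
      ((bd.filter (fun a => (N : ℤ) ∣ a - α)).card : ℝ) ≤ ρ' * ((ad.filter (fun a => (N : ℤ) ∣ a - α)).card : ℝ) + R α ∧
      W < (ad.filter (fun a => (N : ℤ) ∣ a - α)).card := by
    intro α hα hc1 hc2
    have hα' := mem_range.1 hα
    obtain ⟨u, L, hL, hu, hP⟩ := cls_card' N hN α A H
    have h1 : (bd.filter (fun a => (N : ℤ) ∣ a - α)).card =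
        ((range L).filter (fun n : ℕ => ¬ G (α + N * (u + n)))).card := by
      refine Eq.trans ?_ ((hP (fun a => ¬ G a)).trans ?_)
      · rw [hbd, filter_filter]
        congr 1
        ext a
        simp only [mem_filter]
        constructor
        · rintro ⟨h5, ⟨_, _, h3⟩, h4⟩
          exact ⟨h5, h4, h3⟩
        · rintro ⟨h5, h4, h3⟩
          refine ⟨h5, ⟨?_, adm_shift h2 hdN' h4 hc2, h3⟩, h4⟩
          have := dvd_add (hN₀'.trans h4) hc1
          rwa [sub_add_sub_cancel] at this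
      · congr 1
        ext n
        simp only [mem_filter]
    have h3 : (ad.filter (fun a => (N : ℤ) ∣ a - α)).card = L := by
      refine Eq.trans ?_ ((hP (fun _ => True)).trans ?_)
      · rw [had, filter_filter]
        congr 1
        ext a
        simp only [mem_filter]
        constructor
        · rintro ⟨h5, _, h4⟩
          exact ⟨h5, h4, trivial⟩
        · rintro ⟨h5, h4, _⟩
          refine ⟨h5, ⟨?_, adm_shift h2 hdN' h4 hc2⟩, h4⟩
          have := dvd_add (hN₀'.trans h4) hc1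
          rwa [sub_add_sub_cancel] at this
      · simp
    have hRα : R α ≤ Rm := Finset.single_le_sum (f := R) (fun _ _ => Nat.zero_le _) hα
    -- the position is far to the right
    have hu2 : (Rm : ℤ) < u := by
      have h4 : ((N * (Rm + 1) + N * (W + 1) : ℕ) : ℤ) ≤ A := by rw [hA]; exact_mod_cast hM
      push_cast at h4
      have h5 : (α : ℤ) < N := by exact_mod_cast hα'
      have h6 : (N : ℤ) * Rm < N * u := by
        have h7 : (0 : ℤ) ≤ N * (W + 1) := by positivity
        linarith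
      exact lt_of_mul_lt_mul_left h6 hN0.le
    obtain ⟨u', rfl⟩ := Int.eq_ofNat_of_zero_le (by
      have : (0 : ℤ) ≤ Rm := Nat.cast_nonneg _
      linarith : 0 ≤ u)
    rw [h1, h3]
    refine ⟨?_, ?_⟩
    · have h4 := cover (P := fun s => ¬ G (α + N * s)) hρ' (R := R α) (hR α hα' hc2) L u' (by
        have : (Rm : ℤ) < (u' : ℤ) := hu2
        have : Rm < u' := by exact_mod_cast this
        omega)
      exact h4
    · have h5 : N * (W + 1) < N * (L + 1) := by
        have : N * (W + 1) ≤ H := le_trans (Nat.le_add_left _ _) hH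
        exact lt_of_le_of_lt this hL
      have h6 := lt_of_mul_lt_mul_left h5 (Nat.zero_le _)
      omega
  have hzero : ∀ α ∈ range N, ¬ ((N₀ : ℤ) ∣ α - r ∧ Adm α d) →
      ad.filter (fun a => (N : ℤ) ∣ a - α) = ∅ := by
    intro α _ hc
    rw [filter_eq_empty_iff]
    intro a ha hd
    rw [had, mem_filter] at ha
    apply hc
    have hd' : (N : ℤ) ∣ α - a := by
      rw [← neg_sub]
      exact hd.neg_right
    refine ⟨?_, adm_shift h2 hdN' hd' ha.2.2⟩
    have := dvd_add (hN₀'.trans hd') ha.2.1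
    rwa [sub_add_sub_cancel] at this
  have hsub : bd ⊆ ad := by
    intro a ha
    rw [hbd, mem_filter] at ha
    rw [had, mem_filter]
    exact ⟨ha.1, ha.2.1, ha.2.2.1⟩
  have hle : (bd.card : ℝ) ≤ ρ' * ad.card + Rm := by
    rw [split N hN bd, split N hN ad, hRm]
    push_cast
    rw [mul_sum, ← Finset.sum_add_distrib]
    apply Finset.sum_le_sum
    intro α hα
    by_cases hc : (N₀ : ℤ) ∣ α - r ∧ Adm α d
    · exact (hcl α hα hc.1 hc.2).1
    · have h1 := hzero α hα hc
      have h3 : bd.filter (fun a => (N : ℤ) ∣ a - α) = ∅ := by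
        rw [← subset_empty, ← h1]
        exact filter_subset_filter _ hsub
      rw [h1, h3, card_empty]
      have : (0 : ℝ) ≤ R α := Nat.cast_nonneg _
      simp only [Nat.cast_zero, mul_zero, zero_add]
      exact this
  have h8 : ((gd.card + bd.card : ℕ) : ℝ) = ad.card := by exact_mod_cast hsum
  push_cast at h8
  -- there is an admissible class
  have hne : ∃ α ∈ range N, (N₀ : ℤ) ∣ α - r ∧ Adm α d := by
    by_contra hno
    push Not at hno
    have h9 : ad.card = 0 := by
      rw [split N hN ad]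
      apply Finset.sum_eq_zero
      intro α hα
      rw [hzero α hα (fun hc => hno α hα hc.1 hc.2), card_empty]
    rw [h9, Nat.cast_zero, mul_zero] at hlt
    exact absurd hlt (not_lt.2 (Nat.cast_nonneg _))
  obtain ⟨α, hα, hc1, hc2⟩ := hne
  have h10 := (hcl α hα hc1 hc2).2
  have h11 : (W : ℝ) < ad.card := by
    exact_mod_cast h10.trans_le (card_le_card (filter_subset _ _))
  have h12 : (Rm : ℝ) < (ρ - ρ') * ad.card := by
    rw [div_lt_iff₀ (by linarith)] at hW
    have h13 : (W : ℝ) * (ρ - ρ') < ad.card * (ρ - ρ') := mul_lt_mul_of_pos_right h11 (by linarith)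
    linarith
  linarith

/-- the limit set -/
theorem limset {P : ℕ → ℤ → Prop} [∀ u s, Decidable (P u s)] {ρ : ℝ}
    (h : ∀ R : ℕ, ∃ u : ℕ, R ≤ u ∧ ∀ R' : ℕ, 1 ≤ R' → R' ≤ R →
      ρ * R' ≤ (((range R').filter (fun n : ℕ => P u n)).card : ℝ)) :
    ∃ U : Set ℤ, (∀ L₀ : ℕ, ∃ L : ℕ, L₀ ≤ L ∧ ∃ u : ℤ,
      ρ * L ≤ ({n : ℕ | n < L ∧ u + (n : ℤ) ∈ U}.ncard : ℝ)) ∧ (∀ s ∈ U, 0 ≤ s) ∧
      ∀ R : ℕ, ∃ u : ℕ, R ≤ u ∧ ∀ s ∈ U, s ≤ R → P u s := by
  choose u hu hd using h
  set F : Ultrafilter ℕ := hyperfilter ℕ with hF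
  refine ⟨{s : ℤ | 0 ≤ s ∧ ∀ᶠ R in (F : Filter ℕ), P (u R) s}, ?_, fun s hs => hs.1, ?_⟩
  · intro L₀
    refine ⟨max L₀ 1, le_max_left _ _, 0, ?_⟩
    set L := max L₀ 1 with hL
    have h1 : ∀ᶠ R in (F : Filter ℕ), ∀ n ∈ range L,
        ((n : ℤ) ∈ {s : ℤ | 0 ≤ s ∧ ∀ᶠ R in (F : Filter ℕ), P (u R) s} ↔ P (u R) n) := by
      rw [Filter.eventually_all_finset]
      intro n _
      by_cases hn : ∀ᶠ R in (F : Filter ℕ), P (u R) n
      · filter_upwards [hn] with R hR
        exact ⟨fun _ => hR, fun _ => ⟨Nat.cast_nonneg _, hn⟩⟩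
      · have hn' : ∀ᶠ R in (F : Filter ℕ), ¬ P (u R) n := Ultrafilter.eventually_not.2 hn
        filter_upwards [hn'] with R hR
        exact ⟨fun h => absurd h.2 hn, fun h => absurd h hR⟩
    have h2 : ∀ᶠ R in (F : Filter ℕ), L ≤ R := Nat.hyperfilter_le_atTop (eventually_ge_atTop L)
    obtain ⟨R, hR1, hR2⟩ := (h1.and h2).exists
    refine (hd R L (le_max_right _ _) hR2).trans ?_
    rw [Nat.cast_le, ← Set.ncard_coe_finset]
    apply Set.ncard_le_ncard
    · intro n hn
      rw [mem_coe, mem_filter] at hn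
      refine ⟨mem_range.1 hn.1, ?_⟩
      rw [zero_add]
      exact (hR1 n hn.1).2 hn.2
    · exact (Set.finite_Iio L).subset (fun n hn => hn.1)
  · intro R₀
    have h1 : ∀ᶠ R in (F : Filter ℕ), ∀ n ∈ range (R₀ + 1),
        ((n : ℤ) ∈ {s : ℤ | 0 ≤ s ∧ ∀ᶠ R in (F : Filter ℕ), P (u R) s} → P (u R) n) := by
      rw [Filter.eventually_all_finset]
      intro n _
      by_cases hn : ∀ᶠ R in (F : Filter ℕ), P (u R) n
      · filter_upwards [hn] with R hR _
        exact hR
      · exact Eventually.of_forall fun R h => absurd h.2 hn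
    have h2 : ∀ᶠ R in (F : Filter ℕ), R₀ ≤ R := Nat.hyperfilter_le_atTop (eventually_ge_atTop R₀)
    obtain ⟨R, hR1, hR2⟩ := (h1.and h2).exists
    refine ⟨u R, hR2.trans (hu R), fun s hs hsR => ?_⟩
    obtain ⟨n, rfl⟩ := Int.eq_ofNat_of_zero_le hs.1
    exact hR1 n (mem_range.2 (by omega)) hs

end Pool.Agent.N679.GB
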