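import Mathlib
import Pool.Agent.N679.SD.Glu
import Pool.Agent.N679.GB.Den2

/-! # From forms to classes of sums -/

set_option autoImplicit false

namespace Pool.Agent.N679.GB

open Finset Filter
open Pool.Agent.Y827.GS (cntN cntN_anti Adf adf_ev)
open Pool.Agent.N679.PD
open Pool.Agent.N679.SD (bad_ev adm_shift)

/-- the number of the primes `q` for which `m - b q` is a prime -/
noncomputable def rep (b m : ℤ) : ℕ := {q : ℕ | q.Prime ∧ ∃ p : ℕ, p.Prime ∧ (p : ℤ) + b * q = m}.ncard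

open Classical in
/-- simultaneous prime values of two forms -/
theorem cnt_ge' {s b s' b' Q : ℤ} (hs : s ≠ 0) (hs' : s' = s * Q)
    {F : Finset (ℤ × ℤ)} (h1 : (s, b) ∈ F) (h2 : (s', b') ∈ F) {N x : ℕ}
    (hx : ∀ n : ℕ, 1 ≤ n → n ≤ N → s * n + b ≤ x) : cntN F N ≤ cnt (b' - Q * b) Q x := by
  unfold cnt
  have hfin : {q : ℕ | q ≤ x ∧ q.Prime ∧ ∃ p : ℕ, p.Prime ∧ b' - Q * b + q * Q = p}.Finite :=
    (Set.finite_Iic x).subset (fun q hq => hq.1)
  have e1 : cntN F N = (((Icc 1 N).filter (fun n : ℕ => ∀ f ∈ F,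
    (f.1 * (n : ℤ) + f.2).toNat.Prime)).image (fun n : ℕ => (s * n + b).toNat)).card := by
    rw [card_image_of_injOn]
    · rfl
    · intro n hn n' hn' he
      rw [mem_coe, mem_filter] at hn hn'
      have hp := hn.2 _ h1
      have hp' := hn'.2 _ h1
      simp only at hp hp' he
      have hpos : 0 < (s * n + b).toNat := hp.pos
      have hpos' : 0 < (s * n' + b).toNat := hp'.pos
      have h5 : s * n + b = s * n' + b := by omega
      have h6 : s * ((n : ℤ) - n') = 0 := by linarith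
      rcases mul_eq_zero.1 h6 with h7 | h7
      · exact absurd h7 hs
      · omega
  rw [e1, ← Set.ncard_coe_finset]
  apply Set.ncard_le_ncard _ hfin
  intro q hq
  rw [mem_coe, mem_image] at hq
  obtain ⟨n, hn, rfl⟩ := hq
  obtain ⟨hn1, hn2⟩ := mem_filter.1 hn
  have hp := hn2 _ h1
  have hp' := hn2 _ h2
  simp only at hp hp'
  have hpos : 0 < (s * n + b).toNat := hp.pos
  have hpos' : 0 < (s' * n + b').toNat := hp'.pos
  have e2 : ((s * n + b).toNat : ℤ) = s * n + b := Int.toNat_of_nonneg (by omega)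
  have e3 : ((s' * n + b').toNat : ℤ) = s' * n + b' := Int.toNat_of_nonneg (by omega)
  refine ⟨?_, hp, (s' * n + b').toNat, hp', ?_⟩
  · rw [mem_Icc] at hn1
    zify
    rw [e2]
    exact hx n hn1.1 hn1.2
  · rw [e2, e3, hs']
    ring

open Classical in
/-- simultaneous prime values of a decreasing and an increasing form -/
theorem rep_ge {b c1 c2 m : ℤ} (hb : 1 ≤ b) (hm : m = b * c1 + c2)
    {F : Finset (ℤ × ℤ)} (h1 : (-1, c1) ∈ F) (h2 : (b, c2) ∈ F) {N : ℕ} : cntN F N ≤ rep b m := by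
  unfold rep
  have hfin : {q : ℕ | q.Prime ∧ ∃ p : ℕ, p.Prime ∧ (p : ℤ) + b * q = m}.Finite := by
    refine (Set.finite_Iic m.toNat).subset ?_
    rintro q ⟨_, p, _, h⟩
    have h3 : (1 : ℤ) * q ≤ b * q := mul_le_mul_of_nonneg_right hb (Nat.cast_nonneg _)
    have h4 : (0 : ℤ) ≤ p := Nat.cast_nonneg _
    show q ≤ m.toNat
    omega
  have e1 : cntN F N = (((Icc 1 N).filter (fun n : ℕ => ∀ f ∈ F,
    (f.1 * (n : ℤ) + f.2).toNat.Prime)).image (fun n : ℕ => (-1 * n + c1).toNat)).card := by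
    rw [card_image_of_injOn]
    · rfl
    · intro n hn n' hn' he
      rw [mem_coe, mem_filter] at hn hn'
      have hp := hn.2 _ h1
      have hp' := hn'.2 _ h1
      simp only at hp hp' he
      have hpos : 0 < (-1 * (n : ℤ) + c1).toNat := hp.pos
      have hpos' : 0 < (-1 * (n' : ℤ) + c1).toNat := hp'.pos
      omega
  rw [e1, ← Set.ncard_coe_finset]
  apply Set.ncard_le_ncard _ hfin
  intro q hq
  rw [mem_coe, mem_image] at hq
  obtain ⟨n, hn, rfl⟩ := hq
  obtain ⟨hn1, hn2⟩ := mem_filter.1 hn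
  have hp := hn2 _ h1
  have hp' := hn2 _ h2
  simp only at hp hp'
  have hpos : 0 < (-1 * (n : ℤ) + c1).toNat := hp.pos
  have hpos' : 0 < (b * n + c2).toNat := hp'.pos
  have e2 : ((-1 * (n : ℤ) + c1).toNat : ℤ) = -1 * n + c1 := Int.toNat_of_nonneg (by omega)
  have e3 : ((b * n + c2).toNat : ℤ) = b * n + c2 := Int.toNat_of_nonneg (by omega)
  refine ⟨hp, (b * n + c2).toNat, hp', ?_⟩
  rw [e2, e3, hm]
  ring

open Classical in
/-- at least 10 n / 9 of the 4 n classes have forms which are prime together -/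
theorem many2 (n : ℕ) (hn : 1 ≤ n) : ∃ K : ℕ, 1 ≤ K ∧ ∀ A : ℕ, ∀ᶠ N : ℕ in atTop,
    ∀ f : Bool × Bool × Fin n → Fin K → ℤ × ℤ,
    Function.Injective (fun x : (Bool × Bool × Fin n) × Fin K => f x.1 x.2) →
    (∀ g i, Adf A N (f g i)) →
    (∀ p : ℕ, p.Prime → p ≤ 4 * n * K → ∃ r : ℤ, ∀ g i, ¬ (p : ℤ) ∣ (f g i).1 * r + (f g i).2) →
    ∃ (S : Finset (Bool × Bool × Fin n)) (c : Bool × Bool × Fin n → Fin K),
      (10 / 9 : ℝ) * n ≤ S.card ∧ ∀ g ∈ S, ∀ g' ∈ S,
        (N : ℝ) / (Real.log N) ^ (4 * n * K + 2) ≤ (cntN {f g (c g), f g' (c g')} N : ℝ) := by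
  obtain ⟨K, hK, h⟩ := Pool.Agent.Y827.RO.lamRD (4 * n)
  refine ⟨K, hK, fun A => ?_⟩
  set e : Bool × Bool × Fin n ≃ Fin (4 * n) := Fintype.equivFinOfCardEq (by simp; ring) with he
  filter_upwards [h (by omega) A] with N hN f hinj hA hloc
  obtain ⟨S, c, h3, h4⟩ := hN (fun g i => f (e.symm g) i) (by
      intro x y hxy
      have := hinj (a₁ := (e.symm x.1, x.2)) (a₂ := (e.symm y.1, y.2)) hxy
      rw [Prod.mk.injEq] at this
      exact Prod.ext (e.symm.injective this.1) this.2)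
    (fun g i => hA _ _)
    (fun p hp hle => by
      obtain ⟨r, hr⟩ := hloc p hp hle
      exact ⟨r, fun g i => hr _ _⟩)
  refine ⟨S.image e.symm, fun g => c (e g), ?_, ?_⟩
  · rw [card_image_of_injective _ e.symm.injective]
    push_cast at h3
    linarith
  · intro g hg g' hg'
    obtain ⟨u, hu, rfl⟩ := mem_image.1 hg
    obtain ⟨v, hv, rfl⟩ := mem_image.1 hg'
    refine h4.trans ?_
    have := cntN_anti (F := S.image (fun g => f (e.symm g) (c g)))
      (F' := {f (e.symm u) (c (e (e.symm u))), f (e.symm v) (c (e (e.symm v)))}) (by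
        intro f hf
        rw [mem_insert, mem_singleton] at hf
        rcases hf with rfl | rfl
        · rw [e.apply_symm_apply]
          exact mem_image.2 ⟨u, hu, rfl⟩
        · rw [e.apply_symm_apply]
          exact mem_image.2 ⟨v, hv, rfl⟩) N
    exact_mod_cast this

/-- comparison of the bounds -/
theorem repcmp (C b W : ℕ) : ∀ᶠ c : ℕ in atTop, ∀ m : ℤ, |m - b * c| ≤ W → 1 ≤ b →
    (m : ℝ) / (Real.log m) ^ (C + 1) ≤ ((c + W : ℕ) : ℝ) / (Real.log ((c + W : ℕ) : ℝ)) ^ C := by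
  have hl : ∀ᶠ c : ℕ in atTop, 2 * ((b + 1 : ℝ) * 2 ^ C) ≤ Real.log c :=
    (Real.tendsto_log_atTop.comp tendsto_natCast_atTop_atTop).eventually_ge_atTop _
  filter_upwards [hl, eventually_ge_atTop (3 * W + 16)] with c hc hcW m hm hb
  have hm2 := abs_le.1 hm
  have h1 : (m : ℝ) ≤ b * c + W := by
    have : m ≤ b * c + W := by linarith [hm2.2]
    exact_mod_cast this
  have h2 : (b : ℝ) * c - W ≤ m := by
    have : (b : ℤ) * c - W ≤ m := by linarith [hm2.1]
    exact_mod_cast this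
  have hc1 : (3 * W + 16 : ℝ) ≤ c := by exact_mod_cast hcW
  have hb1 : (1 : ℝ) ≤ b := by exact_mod_cast hb
  have hW0 : (0 : ℝ) ≤ W := Nat.cast_nonneg _
  have hbc : (1 : ℝ) * c ≤ b * c := mul_le_mul_of_nonneg_right hb1 (by linarith)
  set y : ℝ := ((c + W : ℕ) : ℝ) with hy
  have hy' : y = c + W := by rw [hy]; push_cast; ring
  have hmy : y / 2 ≤ m := by rw [hy']; linarith
  have hmy2 : (m : ℝ) ≤ (b + 1) * y := by
    rw [hy']
    have : (b : ℝ) * c + W ≤ (b + 1) * (c + W) := by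
      have h3 : (0 : ℝ) ≤ b * W := by positivity
      nlinarith
    linarith
  have hy16 : 16 ≤ y := by rw [hy']; linarith
  have hm0 : (0 : ℝ) < m := by linarith
  have hlogy : Real.log c ≤ Real.log y := Real.log_le_log (by linarith) (by rw [hy']; linarith)
  have hlogm : Real.log y ≤ 2 * Real.log m := by
    have h3 : y ≤ (m : ℝ) ^ 2 := by
      have h4 : y ≤ (y / 2) ^ 2 := by nlinarith
      have h5 : (y / 2) ^ 2 ≤ (m : ℝ) ^ 2 := pow_le_pow_left₀ (by linarith) hmy 2
      linarith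
    have h4 := Real.log_le_log (by linarith) h3
    rw [Real.log_pow] at h4
    exact_mod_cast h4
  have hP : (0 : ℝ) < (b + 1 : ℝ) * 2 ^ C := by positivity
  have hlc : 0 < Real.log c := by linarith
  have hly : 0 < Real.log y := by linarith
  have hlm : 0 < Real.log m := by linarith
  have hlm2 : (b + 1 : ℝ) * 2 ^ C ≤ Real.log m := by linarith
  rw [div_le_div_iff₀ (by positivity) (by positivity)]
  calc (m : ℝ) * (Real.log y) ^ C ≤ ((b + 1) * y) * (2 * Real.log m) ^ C := by
        have := pow_le_pow_left₀ hly.le hlogm C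
        have h5 : 0 ≤ (Real.log y) ^ C := by positivity
        have h6 : (0 : ℝ) ≤ (b + 1) * y := by positivity
        exact mul_le_mul hmy2 this h5 h6
    _ = y * (((b + 1 : ℝ) * 2 ^ C) * (Real.log m) ^ C) := by rw [mul_pow]; ring
    _ ≤ y * (Real.log m * (Real.log m) ^ C) := by
        have h5 : 0 ≤ (Real.log m) ^ C := by positivity
        have h6 := mul_le_mul_of_nonneg_right hlm2 h5
        exact mul_le_mul_of_nonneg_left h6 (by linarith)
    _ = y * (Real.log m) ^ (C + 1) := by ring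

open Classical in
theorem glue2 {n K : ℕ} (many : ∀ A : ℕ, ∀ᶠ N : ℕ in atTop,
    ∀ f : Bool × Bool × Fin n → Fin K → ℤ × ℤ,
    Function.Injective (fun x : (Bool × Bool × Fin n) × Fin K => f x.1 x.2) →
    (∀ g i, Adf A N (f g i)) →
    (∀ p : ℕ, p.Prime → p ≤ 4 * n * K → ∃ r : ℤ, ∀ g i, ¬ (p : ℤ) ∣ (f g i).1 * r + (f g i).2) →
    ∃ (S : Finset (Bool × Bool × Fin n)) (c : Bool × Bool × Fin n → Fin K),
      (10 / 9 : ℝ) * n ≤ S.card ∧ ∀ g ∈ S, ∀ g' ∈ S,
        (N : ℝ) / (Real.log N) ^ (4 * n * K + 2) ≤ (cntN {f g (c g), f g' (c g')} N : ℝ))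
    {b N N₁ : ℕ} (hb : 1 ≤ b) (hN₁ : 1 ≤ N₁) (h2 : 2 ∣ N₁) (hNp : ∀ p : ℕ, p.Prime → p ≤ 4 * n * K → p ∣ N₁)
    (hbN : b ∣ N₁) (hNb : N = b * N₁) {α : ℤ} (hα : Adm α b) (X Z : Bool → Fin n → Fin K → ℤ)
    (hX : ∀ a i k a' i' k', X a i k = X a' i' k' → a = a' ∧ i = i' ∧ k = k')
    (hZ : ∀ a i k a' i' k', Z a i k = Z a' i' k' → a = a' ∧ i = i' ∧ k = k')
    (hXV : ∀ i k k', ¬ Oft (4 * n * K + 3) (N * (X true i k' - X false i k)) 1)
    (hZV : ∀ i k k', ¬ Oft (4 * n * K + 3) (N * (Z true i k' - Z false i k)) 1)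
    (hU : ∀ R : ℕ, ∃ u : ℕ, R ≤ u ∧
        ∀ S S' : Bool → Finset (Fin n), Disjoint (S false) (S true) → Disjoint (S' false) (S' true) →
        (10 / 9 : ℝ) * n ≤ ((S false).card + (S true).card + (S' false).card + (S' true).card : ℕ) →
        ∃ a a', ∃ i ∈ S a, ∃ j ∈ S' a', ∀ k k',
          (rep b (α + N * ((u : ℤ) + (Z a' j k' - b * X a i k))) : ℝ) <
            ((α + N * ((u : ℤ) + (Z a' j k' - b * X a i k)) : ℤ) : ℝ) /
              (Real.log ((α + N * ((u : ℤ) + (Z a' j k' - b * X a i k)) : ℤ) : ℝ)) ^ (4 * n * K + 3)) :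
    False := by
  have hN : 1 ≤ N := by rw [hNb]; exact Nat.mul_pos hb hN₁
  obtain ⟨y0, _, hl1, hl2⟩ := exists_y N b hN α hα 0
  have hN0 : (0 : ℤ) < N := by exact_mod_cast hN
  have hb0 : (0 : ℤ) < b := by exact_mod_cast hb
  have hN1N : N₁ ∣ N := by rw [hNb]; exact Dvd.intro_left _ rfl
  have hbN' : (b : ℤ) ∣ N := by exact_mod_cast hbN.trans hN1N
  have h2N : (2 : ℤ) ∣ N := by exact_mod_cast h2.trans hN1N
  have hN1N' : (N₁ : ℤ) ∣ N := by exact_mod_cast hN1N
  obtain ⟨r0, hr0⟩ : ∃ r0 : ℤ, r0 = α + b * y0 := ⟨_, rfl⟩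
  rw [← hr0] at hl2
  -- a bound for the constant terms
  obtain ⟨W, hW⟩ : ∃ W : ℕ, ∀ a i k a' j k', |y0 + N * X a i k| ≤ W ∧ |r0 + N * Z a' j k'| ≤ W ∧
      |α + N * (Z a' j k' - b * X a i k)| ≤ W := by
    obtain ⟨M, hM⟩ := (Set.finite_range (fun x : (Bool × Fin n × Fin K) × (Bool × Fin n × Fin K) =>
      |y0 + N * X x.1.1 x.1.2.1 x.1.2.2| + |r0 + N * Z x.2.1 x.2.2.1 x.2.2.2| +
        |α + N * (Z x.2.1 x.2.2.1 x.2.2.2 - b * X x.1.1 x.1.2.1 x.1.2.2)|)).bddAbove
    refine ⟨M.toNat, fun a i k a' j k' => ?_⟩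
    have h := (hM ⟨((a, i, k), (a', j, k')), rfl⟩).trans (Int.self_le_toNat M)
    simp only at h
    have h3 := abs_nonneg (y0 + N * X a i k)
    have h4 := abs_nonneg (r0 + N * Z a' j k')
    have h5 := abs_nonneg (α + N * (Z a' j k' - b * X a i k))
    refine ⟨by linarith, by linarith, by linarith⟩
  have hadm1 : ∀ t : ℤ, Adm (N * t) 1 := fun t => ⟨by simp, by rw [mul_one]; exact h2N.mul_right _⟩
  -- the bad differences
  have e1 : ∀ᶠ x : ℕ in atTop, ∀ i k k',
      (cnt (N * (X true i k' - X false i k)) 1 x : ℝ) < (x : ℝ) / (Real.log x) ^ (4 * n * K + 2) := by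
    simp only [Filter.eventually_all]
    intro i k k'
    have hl : ∀ᶠ x : ℕ in atTop, (1 : ℝ) ≤ Real.log x :=
      (Real.tendsto_log_atTop.comp tendsto_natCast_atTop_atTop).eventually_ge_atTop _
    filter_upwards [bad_ev (hadm1 _) (hXV i k k'), hl] with x hx hl
    refine hx.trans_le ?_
    apply div_le_div_of_nonneg_left (Nat.cast_nonneg _) (by positivity)
    exact pow_le_pow_right₀ hl (by omega)
  have e2 : ∀ᶠ x : ℕ in atTop, ∀ i k k',
      (cnt (N * (Z true i k' - Z false i k)) 1 x : ℝ) < (x : ℝ) / (Real.log x) ^ (4 * n * K + 2 + 1) := by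
    simp only [Filter.eventually_all]
    exact fun i k k' => bad_ev (hadm1 _) (hZV i k k')
  have ht1 : Tendsto (fun u : ℕ => N₁ * u) atTop atTop :=
    tendsto_atTop_mono (fun u => Nat.le_mul_of_pos_left u hN₁) tendsto_id
  have ht2 : Tendsto (fun u : ℕ => N₁ * u + W) atTop atTop :=
    tendsto_atTop_mono (fun u => Nat.le_add_right _ _) ht1
  have ht3 : Tendsto (fun u : ℕ => b * (N₁ * u + W) + W) atTop atTop :=
    tendsto_atTop_mono (fun u => (Nat.le_mul_of_pos_left _ hb).trans (Nat.le_add_right _ _)) ht2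
  obtain ⟨R, hR⟩ := eventually_atTop.1 ((((ht2.eventually (many b)).and (ht2.eventually e1)).and
    ((ht3.eventually e2).and (ht3.eventually (scale (C := 4 * n * K + 2) (s := b) (w := W) hb)))).and
    ((ht1.eventually (repcmp (4 * n * K + 2) b W)).and (ht1.eventually_ge_atTop (48 * W + 48))))
  obtain ⟨u, hRu, hU⟩ := hU R
  obtain ⟨⟨⟨hmany, hx1⟩, hx2, hsc1, _⟩, hrep, hcW⟩ := hR u hRu
  set c : ℕ := N₁ * u with hc
  set Nx : ℕ := c + W with hNx
  have hdiv : (b * Nx + W - W) / b = Nx := by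
    rw [Nat.add_sub_cancel]
    exact Nat.mul_div_cancel_left _ hb
  rw [hdiv] at hsc1
  -- the forms
  set f : Bool × Bool × Fin n → Fin K → ℤ × ℤ := fun g k =>
    if g.1 = true then ((b : ℤ), r0 + N * Z g.2.1 g.2.2 k) else (-1, c - (y0 + N * X g.2.1 g.2.2 k)) with hf
  have hf1 : ∀ a i k, f (false, a, i) k = (-1, c - (y0 + N * X a i k)) := fun a i k => rfl
  have hf2 : ∀ a i k, f (true, a, i) k = ((b : ℤ), r0 + N * Z a i k) := fun a i k => rfl
  have hcoN : ∀ g k (p : ℕ), p.Prime → (p : ℤ) ∣ N₁ → ¬ (p : ℤ) ∣ (f g k).2 := by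
    rintro ⟨s, a, i⟩ k p hp hpN hdv
    cases s
    · rw [hf1] at hdv
      simp only at hdv
      have h3 : (p : ℤ) ∣ c := by rw [hc]; push_cast; exact hpN.mul_right _
      have h4 : (p : ℤ) ∣ y0 + N * X a i k := (dvd_sub_right h3).1 hdv
      exact gcd_ne hl1 hp ((dvd_add_left ((hpN.trans hN1N').mul_right _)).1 h4) (hpN.trans hN1N')
    · rw [hf2] at hdv
      exact gcd_ne hl2 hp ((dvd_add_left ((hpN.trans hN1N').mul_right _)).1 hdv)
        (by push_cast; exact (hpN.trans hN1N').mul_right _)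
  have hcWr : (48 * W + 48 : ℝ) ≤ c := by exact_mod_cast hcW
  have hNxr : (Nx : ℝ) = c + W := by rw [hNx]; push_cast; ring
  have hWr : (0 : ℝ) ≤ W := Nat.cast_nonneg _
  have hadf : ∀ g k, Adf b Nx (f g k) := by
    rintro ⟨s, a, i⟩ k
    obtain ⟨hw1, hw2, _⟩ := hW a i k a i k
    have hw1' := abs_le.1 hw1
    have hw2' := abs_le.1 hw2
    cases s
    · rw [hf1]
      refine ⟨by norm_num, ?_, ?_, isCoprime_one_left.neg_left, ?_⟩
      · show |(-1 : ℤ)| ≤ b
        rw [abs_neg, abs_one]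
        exact_mod_cast hb
      · show |(c : ℤ) - (y0 + N * X a i k)| ≤ Nx
        have h3 : (48 * W + 48 : ℤ) ≤ c := by exact_mod_cast hcW
        have h4 : (Nx : ℤ) = c + W := by rw [hNx]; push_cast; ring
        have h5 : (0 : ℤ) ≤ W := Nat.cast_nonneg _
        rw [abs_le, h4]
        constructor
        · linarith [hw1'.2]
        · linarith [hw1'.1]
      · intro t ht1 ht2
        show (Nx : ℝ) / 24 ≤ ((-1 : ℤ) : ℝ) * t + ((c - (y0 + N * X a i k) : ℤ) : ℝ)
        have h3 : ((y0 + N * X a i k : ℤ) : ℝ) ≤ W := by exact_mod_cast hw1'.2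
        rw [Int.cast_sub]
        push_cast at h3 ⊢
        rw [hNxr] at ht1 ht2 ⊢
        linarith
    · rw [hf2]
      refine ⟨hb0.ne', ?_, ?_, ?_, ?_⟩
      · show |(b : ℤ)| ≤ b
        rw [abs_of_pos hb0]
      · show |r0 + N * Z a i k| ≤ Nx
        refine hw2.trans ?_
        rw [hNx]
        push_cast
        linarith [(Nat.cast_nonneg c : (0 : ℤ) ≤ c)]
      · show IsCoprime (b : ℤ) (r0 + N * Z a i k)
        rw [Int.isCoprime_iff_gcd_eq_one]
        refine gcd_one fun p hp h1 h3 => ?_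
        have h4 : (p : ℤ) ∣ r0 := (dvd_add_left ((h1.trans hbN').mul_right _)).1 h3
        exact gcd_ne hl2 hp h4 (by push_cast; exact h1.mul_left _)
      · intro t ht1 ht2
        show (Nx : ℝ) / 24 ≤ ((b : ℤ) : ℝ) * t + ((r0 + N * Z a i k : ℤ) : ℝ)
        have h3 : -(W : ℝ) ≤ ((r0 + N * Z a i k : ℤ) : ℝ) := by exact_mod_cast hw2'.1
        have h4 : (1 : ℝ) ≤ b := by exact_mod_cast hb
        have ht0 : 0 ≤ t := by
          rw [hNxr] at ht1
          linarith
        have h5 : (1 : ℝ) * t ≤ b * t := mul_le_mul_of_nonneg_right h4 ht0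
        push_cast at h3 ⊢
        rw [hNxr] at ht1 ht2 ⊢
        linarith
  have hinj : Function.Injective (fun x : (Bool × Bool × Fin n) × Fin K => f x.1 x.2) := by
    rintro ⟨⟨s, a, i⟩, k⟩ ⟨⟨s', a', i'⟩, k'⟩ h
    simp only at h
    cases s <;> cases s'
    · rw [hf1, hf1, Prod.mk.injEq] at h
      have h1 : (N : ℤ) * X a i k = N * X a' i' k' := by linarith [h.2]
      obtain ⟨rfl, rfl, rfl⟩ := hX _ _ _ _ _ _ (mul_left_cancel₀ hN0.ne' h1)
      rfl
    · exfalso
      rw [hf1, hf2, Prod.mk.injEq] at h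
      linarith [h.1]
    · exfalso
      rw [hf1, hf2, Prod.mk.injEq] at h
      linarith [h.1]
    · rw [hf2, hf2, Prod.mk.injEq] at h
      have h1 : (N : ℤ) * Z a i k = N * Z a' i' k' := by linarith [h.2]
      obtain ⟨rfl, rfl, rfl⟩ := hZ _ _ _ _ _ _ (mul_left_cancel₀ hN0.ne' h1)
      rfl
  obtain ⟨S, cc, hS, hcl⟩ := hmany f hinj hadf (fun p hp hle => ⟨0, fun g i hdv => by
    rw [mul_zero, zero_add] at hdv
    exact hcoN g i p hp (by exact_mod_cast hNp p hp hle) hdv⟩)
  obtain ⟨a, a', i, hi, j, hj, hbad⟩ := hU (fun a => univ.filter (fun i => (false, a, i) ∈ S))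
    (fun a => univ.filter (fun i => (true, a, i) ∈ S))
    (by
      rw [Finset.disjoint_left]
      intro i hi hi'
      have h1 := (mem_filter.1 hi).2
      have h3 := (mem_filter.1 hi').2
      have h4 := hcl _ h3 _ h1
      have h5 : cntN {f (false, true, i) (cc (false, true, i)), f (false, false, i) (cc (false, false, i))} Nx ≤
          cnt ((f (false, false, i) (cc (false, false, i))).2 - 1 * (f (false, true, i) (cc (false, true, i))).2) 1 Nx := by
        refine cnt_ge' (s := -1) (s' := -1) (by norm_num) (by norm_num)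
          (F := {f (false, true, i) (cc (false, true, i)), f (false, false, i) (cc (false, false, i))})
          (by rw [hf1]; simp) (by rw [hf1, hf1]; simp) ?_
        intro m hm _
        obtain ⟨hw1, _, _⟩ := hW true i (cc (false, true, i)) true i (cc (false, true, i))
        have hw1' := abs_le.1 hw1
        rw [hf1]
        simp only
        have h6 : (Nx : ℤ) = c + W := by rw [hNx]; push_cast; ring
        rw [h6]
        have h7 : (0 : ℤ) ≤ m := Nat.cast_nonneg _
        linarith [hw1'.1]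
      have e : (f (false, false, i) (cc (false, false, i))).2 - 1 * (f (false, true, i) (cc (false, true, i))).2 =
          N * (X true i (cc (false, true, i)) - X false i (cc (false, false, i))) := by
        rw [hf1, hf1]; ring
      rw [e] at h5
      have h6 : (cntN {f (false, true, i) (cc (false, true, i)), f (false, false, i) (cc (false, false, i))} Nx : ℝ) ≤
          (cnt (N * (X true i (cc (false, true, i)) - X false i (cc (false, false, i)))) 1 Nx : ℝ) := by
        exact_mod_cast h5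
      exact absurd (h4.trans h6) (not_le.2 (hx1 _ _ _)))
    (by
      rw [Finset.disjoint_left]
      intro i hi hi'
      have h1 := (mem_filter.1 hi).2
      have h3 := (mem_filter.1 hi').2
      have h4 := hcl _ h1 _ h3
      have h5 : cntN {f (true, false, i) (cc (true, false, i)), f (true, true, i) (cc (true, true, i))} Nx ≤
          cnt ((f (true, true, i) (cc (true, true, i))).2 - 1 * (f (true, false, i) (cc (true, false, i))).2) 1
            (b * Nx + W) := by
        refine cnt_ge' (s := b) (s' := b) hb0.ne' (by ring)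
          (F := {f (true, false, i) (cc (true, false, i)), f (true, true, i) (cc (true, true, i))})
          (by rw [hf2]; simp) (by rw [hf2, hf2]; simp) ?_
        intro m _ hm
        obtain ⟨_, hw2, _⟩ := hW false i (cc (true, false, i)) false i (cc (true, false, i))
        have hw2' := abs_le.1 hw2
        rw [hf2]
        simp only
        have h7 : (b : ℤ) * m ≤ b * Nx := mul_le_mul_of_nonneg_left (by exact_mod_cast hm) hb0.le
        push_cast
        linarith [hw2'.2]
      have e : (f (true, true, i) (cc (true, true, i))).2 - 1 * (f (true, false, i) (cc (true, false, i))).2 =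
          N * (Z true i (cc (true, true, i)) - Z false i (cc (true, false, i))) := by
        rw [hf2, hf2]; ring
      rw [e] at h5
      have h6 : (cntN {f (true, false, i) (cc (true, false, i)), f (true, true, i) (cc (true, true, i))} Nx : ℝ) ≤
          (cnt (N * (Z true i (cc (true, true, i)) - Z false i (cc (true, false, i)))) 1 (b * Nx + W) : ℝ) := by
        exact_mod_cast h5
      exact absurd (hsc1.trans (h4.trans h6)) (not_le.2 (hx2 _ _ _)))
    (by
      refine hS.trans (le_of_eq ?_)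
      congr 1
      have h1 : S.card = ∑ g : Bool × Bool × Fin n, if g ∈ S then 1 else 0 := by
        rw [← card_filter]
        congr 1
        ext g
        simp
      rw [h1, Fintype.sum_prod_type]
      simp only [Fintype.sum_prod_type, Fintype.sum_bool, card_filter]
      ring)
  have h1 := (mem_filter.1 hi).2
  have h3 := (mem_filter.1 hj).2
  have h4 := hcl _ h1 _ h3
  obtain ⟨m, hm⟩ : ∃ m : ℤ, m = α + N * ((u : ℤ) + (Z a' j (cc (true, a', j)) - b * X a i (cc (false, a, i)))) := ⟨_, rfl⟩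
  have hbc : (N : ℤ) * u = b * c := by rw [hc, hNb]; push_cast; ring
  have h5 : cntN {f (false, a, i) (cc (false, a, i)), f (true, a', j) (cc (true, a', j))} Nx ≤ rep b m := by
    refine rep_ge (c1 := c - (y0 + N * X a i (cc (false, a, i)))) (c2 := r0 + N * Z a' j (cc (true, a', j)))
      (by exact_mod_cast hb) ?_ (by rw [hf1]; simp) (by rw [hf1, hf2]; simp)
    rw [hm, hr0]
    linear_combination hbc
  have h6 := hbad (cc (false, a, i)) (cc (true, a', j))
  rw [← hm] at h6
  have h7 := hrep m (by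
    obtain ⟨_, _, hw3⟩ := hW a i (cc (false, a, i)) a' j (cc (true, a', j))
    have e : m - b * c = α + N * (Z a' j (cc (true, a', j)) - b * X a i (cc (false, a, i))) := by
      rw [hm]; linear_combination hbc
    rw [e]
    exact hw3) hb
  have h8 : (cntN {f (false, a, i) (cc (false, a, i)), f (true, a', j) (cc (true, a', j))} Nx : ℝ) ≤ rep b m := by
    exact_mod_cast h5
  linarith [h4.trans h8]

end Pool.Agent.N679.GB
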